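import Pool.Agent.Q148.PH.Fin

/-!
# Almost complete Hadamard matrices in every large order divisible by four

For every `A` and all sufficiently large `n` divisible by four there are at least
`n - n / (log n) ^ A` mutually orthogonal vectors of length `n` with entries `1` and `-1`: all but a
proportion `(log n) ^ (-A)` of the rows of a Hadamard matrix of order `n`.

Construction.  Let `s` be a power of two, about `(log n) ^ A`, and let `p` be a prime,
`p = n - 1` modulo `2 s N`, slightly larger than `n / (s + 1)` (Siegel-Walfisz), where `N` is a very
small power of two.  Put `c = (n - p - 1) / s`, which is at most `p + 1`.  The matrix is `(X | K)`,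
where `K` consists of `s` copies, one below the other, of `c` rows of the Hadamard matrix of Paley of
order `p + 1`, and `X = ∑ H_t ⊗ S_t + (J - 2 I) ⊗ E` has order `s c = n - p - 1`; here
`H_t = h_t h_tᵀ` for the rows `h_t` of a Hadamard matrix of order `s`, `h_0 = 1`, and
`S_0, …, S_{s-1}, E` are disjoint weighing matrices of order `c` which fill all positions.  If their
weights are `a, b, …, b, e` and `S_t * Eᵀ` is skew, then `X * Xᵀ = n I - (p + 1) (J ⊗ I)` as soon as
`n = s ^ 2 b + 4 e`.  No relation between `S_t` and `S_u` is needed.  The weighing matrices are made of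
gadgets (skew conference matrices of order `N` which split into weights `1, 2, 4, …, N / 2`, together
with arms satisfying the canonical anticommutation relations) and negacyclic matrices of para-unitary
sequences of arbitrary length, which exist by the `log*` theorem of the starting files.
-/

set_option autoImplicit false

namespace Pool.Agent.Results.MP_d8b1b3_co.AlmostHadamard

/-- For every `A` there is `n₀` such that for every `n ≥ n₀` divisible by four there are
`r ≥ n - n / (log n) ^ A` and an `r × n` matrix with entries `1` and `-1` whose rows are mutually
orthogonal. -/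
theorem result : ∀ A : ℕ, ∃ n₀ : ℕ, ∀ n : ℕ, n₀ ≤ n → 4 ∣ n →
    ∃ r : ℕ, (n : ℝ) - n / Real.log n ^ A ≤ r ∧
      ∃ M : Matrix (Fin r) (Fin n) ℤ, (∀ i j, M i j = 1 ∨ M i j = -1) ∧
        M * M.transpose = (n : ℤ) • (1 : Matrix (Fin r) (Fin r) ℤ) :=
  Pool.Agent.Q148.PH.main

end Pool.Agent.Results.MP_d8b1b3_co.AlmostHadamard
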