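import Pool.Agent.Q163.HD.PowR

/-!
# Hadamard matrices of order `2 w ^ r (w + 1)`, `w = v ^ 2 ^ (j + 1)`, for all `v = -1` modulo a large
power of two

There is a constant `C` such that for all natural numbers `n`, `v`, `t`, `j`, `r` with `v ≤ 2 ↑↑ n`
(the power tower of `n` twos, `1` for `n = 0`), `t ≥ 2 ^ C ^ (n + 1)` and `2 ^ t ∣ v + 1` there is a
Hadamard matrix of order `2 w ^ r (w + 1)`, where `w = v ^ 2 ^ (j + 1)`. No primality is assumed, and
`r` and `j` are arbitrary.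

A skew-Hadamard matrix of order `v + 1` (starting files) gives a symmetric core `W` of order `w`,
`W ^ 2 = w I - J`, and a symmetric conference matrix `K` of order `w + 1`. Put `A = K`, `B = I` and
replace, `r` times, the pair `(A, B)` by `(B ⊗ J + A ⊗ W, A ⊗ I)`. Then `A`, `B` are symmetric and
commute, have disjoint supports which cover everything, and `A ^ 2 = w ^ (r + 1) I`,
`B ^ 2 = w ^ r I`. The matrix with the blocks `A + B`, `A - B`, `A - B`, `- A - B` is a Hadamard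
matrix.
-/

namespace Pool.Agent.Results.MP_d8b1b3_co.CorePowers

theorem result : ∃ C : ℕ, ∀ n v t j r w : ℕ, v ≤ (fun x : ℕ => 2 ^ x)^[n] 1 →
    2 ^ C ^ (n + 1) ≤ t → 2 ^ t ∣ v + 1 → w = v ^ 2 ^ (j + 1) →
    ∃ H : Matrix (Fin (2 * (w ^ r * (w + 1)))) (Fin (2 * (w ^ r * (w + 1)))) ℤ,
      (∀ i k, H i k = 1 ∨ H i k = -1) ∧
      H * H.transpose = ((2 * (w ^ r * (w + 1)) : ℕ) : ℤ) •
        (1 : Matrix (Fin (2 * (w ^ r * (w + 1)))) (Fin (2 * (w ^ r * (w + 1)))) ℤ) := by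
  obtain ⟨C, _, h⟩ := Pool.Agent.Q163.HD.main_powr
  refine ⟨C, fun n v t j r w hv ht hd hw => ?_⟩
  subst hw
  exact h n v t j r hv ht hd

end Pool.Agent.Results.MP_d8b1b3_co.CorePowers
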