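import Pool.Agent.Q163.HD.Pal

/-!
# Hadamard matrices of order `4 (q + 2)` for prime powers `q = -3` modulo a large power of two

There is a constant `C` such that for all natural numbers `n` and `t` and all prime powers `q` with
`q ≤ 2 ↑↑ n` (the power tower of `n` twos, `1` for `n = 0`), `t ≥ 2 ^ C ^ (n + 1)` and
`2 ^ t ∣ q + 3` there is a Hadamard matrix of order `4 (q + 2)`.

The quarter `q + 2` of the order is `-1` modulo `2 ^ t`; the starting files have the quarters `q`,
`q = 1` modulo `2 ^ t`, and `v ^ 2`, `v = -1` modulo `2 ^ t`.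

Proof. Put `r = (q + 1) / 2`. The symmetric conference matrix of the projective line over the field
with `q` elements is split by a fixed point free involution `x ↦ c / x`, `c` a non-square, into two
symmetric commuting matrices `A` (zero diagonal) and `B` of order `r` with `A ^ 2 + B ^ 2 = q I`.
The asymptotic theorem on skew-Hadamard matrices of the starting files gives a skew core `S` of order
`r`, since `r + 1` is divisible by `2 ^ (t - 1)`. A Hadamard matrix of order `4 + 8 r = 4 (q + 2)`
consists of a border of width four and of `8 × 8` blocks of order `r` formed from `A`, `B`, `I` and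
`S` (`Pool.Agent.Q163.HD.YData.M`); this arrangement is a form of a theorem of Yamada.
-/

namespace Pool.Agent.Results.MP_d8b1b3_co.PrimePowerPlusTwo

theorem result : ∃ C : ℕ, ∀ n q t : ℕ, IsPrimePow q → q ≤ (fun x : ℕ => 2 ^ x)^[n] 1 →
    2 ^ C ^ (n + 1) ≤ t → 2 ^ t ∣ q + 3 →
    ∃ H : Matrix (Fin (4 * (q + 2))) (Fin (4 * (q + 2))) ℤ,
      (∀ i j, H i j = 1 ∨ H i j = -1) ∧
      H * H.transpose = ((4 * (q + 2) : ℕ) : ℤ) •
        (1 : Matrix (Fin (4 * (q + 2))) (Fin (4 * (q + 2))) ℤ) := by
  obtain ⟨C, _, h⟩ := Pool.Agent.Q163.HD.main_yam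
  exact ⟨C, fun n q t hq hqn ht hd => h n q t hq hqn ht hd⟩

end Pool.Agent.Results.MP_d8b1b3_co.PrimePowerPlusTwo
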