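import Pool.Agent.Q163.HD.TS

/-!
# Hadamard matrices of order `4 u q`, `q` a prime power, `q = 1` modulo a large power of two, `u` the
order of T-matrices

There is a constant `C` such that for all natural numbers `n` and `t` and all prime powers `q` with
`q ≤ 2 ↑↑ n` (the power tower of `n` twos, `1` for `n = 0`), `t ≥ 2 ^ C ^ (n + 1)` and
`q = 1` modulo `2 ^ t` there is a Hadamard matrix of order `4 u q` for every order `u` of four
T-matrices over a finite abelian group, in particular for all `u = 2 ^ a + 2 ^ b`.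

The starting files have `u = 1` (`MP_d8b1b3_co/PrimePowerQuarters`). For `u = 2 ^ a + 1`, `a ≥ 1`, the
quarters `u q` of the orders are the numbers `2 ^ a + 1` modulo `2 ^ t`.

Proof. There are symmetric Hadamard matrices of order `2 ^ t q` for all `t ≥ 2 ^ C ^ (n + 1)`,
`0 < q ≤ 2 ↑↑ n` (`Pool.Agent.Q163.HD.main_symm`, a symmetric form of the theorem on skew-Hadamard
matrices of the starting files). Hence, for the prime powers `q` above, a symmetric Hadamard matrix
of order `(q - 1) / 2`, which together with the quadratic character of the field gives four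
commuting symmetric sign matrices of order `q` with `∑ W ^ 2 = 4 q I`, that is, matrices of
Williamson type (`Pool.Agent.Q163.HD.wil_field`). T-matrices give an orthogonal design of order `4 u`
and type `(u, u, u, u)` by the Goethals-Seidel array, and these matrices are substituted in it. Two
Golay pairs of lengths `2 ^ a` and `2 ^ b` give T-matrices over the integers modulo `2 ^ a + 2 ^ b`.
-/

namespace Pool.Agent.Results.MP_d8b1b3_co.WilliamsonMultiples

theorem result : ∃ C : ℕ, ∀ n q t : ℕ, IsPrimePow q → q ≤ (fun x : ℕ => 2 ^ x)^[n] 1 →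
    2 ^ C ^ (n + 1) ≤ t → q ≡ 1 [MOD 2 ^ t] →
    (∀ (G : Type) [AddCommGroup G] [Fintype G] (T : Fin 4 → G → ℤ),
      (∀ g, ∃ j, (T j g = 1 ∨ T j g = -1) ∧ ∀ l, l ≠ j → T l g = 0) →
      (∀ d, d ≠ 0 → ∑ j, ∑ g, T j (g + d) * T j g = 0) →
      ∃ H : Matrix (Fin (4 * Fintype.card G * q)) (Fin (4 * Fintype.card G * q)) ℤ,
        (∀ i j, H i j = 1 ∨ H i j = -1) ∧
        H * H.transpose = ((4 * Fintype.card G * q : ℕ) : ℤ) •
          (1 : Matrix (Fin (4 * Fintype.card G * q)) (Fin (4 * Fintype.card G * q)) ℤ)) ∧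
    ∀ a b : ℕ, ∃ H : Matrix (Fin (4 * (2 ^ a + 2 ^ b) * q)) (Fin (4 * (2 ^ a + 2 ^ b) * q)) ℤ,
      (∀ i j, H i j = 1 ∨ H i j = -1) ∧
      H * H.transpose = ((4 * (2 ^ a + 2 ^ b) * q : ℕ) : ℤ) •
        (1 : Matrix (Fin (4 * (2 ^ a + 2 ^ b) * q)) (Fin (4 * (2 ^ a + 2 ^ b) * q)) ℤ) := by
  obtain ⟨C, _, h⟩ := Pool.Agent.Q163.HD.main_uq
  refine ⟨C, fun n q t hq hqn ht hmod => ?_⟩
  have hd : 2 ^ t ∣ q - 1 := (Nat.modEq_iff_dvd' hq.one_lt.le).1 hmod.symm
  have h1 := h n q t hq hqn ht hd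
  refine ⟨fun G _ _ T hT1 hT2 => h1 G T ⟨hT1, hT2⟩, fun a b => ?_⟩
  obtain ⟨L, hL⟩ : ∃ L, L = 2 ^ a + 2 ^ b := ⟨_, rfl⟩
  have hL0 : 0 < L := by rw [hL]; positivity
  have : NeZero L := ⟨hL0.ne'⟩
  obtain ⟨T, hT⟩ := Pool.Agent.Q163.HD.tmat_of (Pool.Agent.Q163.HD.golay a)
    (Pool.Agent.Q163.HD.golay b) L hL
  have h2 := h1 (ZMod L) T hT
  rw [ZMod.card, hL] at h2
  exact h2

end Pool.Agent.Results.MP_d8b1b3_co.WilliamsonMultiples
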